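import Mathlib
import Pool.Agent.Q261.P01Comp

/-!
# The polynomial `P_{018}` is not convex

The conjecture says that all the polynomials `P_{01r}`, `r ≥ 1`, are alternating and convex. We show
`P_{018}(0) = P_{018}(1) = 0` and `P_{018}(3) = -308510720/9 < 0`, so `P_{018}` is not convex.
-/

set_option autoImplicit false

namespace Pool.Agent.Results.MP_dbc085_nt.NotConvex

open Polynomial Finset

/-- The polynomial `s_j(x)`, given by Faulhaber's formula; `result` includes the proof that
`s_j(N) = 1 ^ j + 2 ^ j + ... + N ^ j` for all natural numbers `N`. -/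
noncomputable def s (j : ℕ) : ℚ[X] :=
  ∑ i ∈ range (j + 1), C (bernoulli' i * ((j + 1).choose i) / (j + 1)) * X ^ (j + 1 - i)

/-- `exp(f) = ∑ f ^ k / k!` for a power series `f` without constant term (only the terms with
`k ≤ n` contribute to the coefficient of `z ^ n`). -/
noncomputable def expS (f : PowerSeries ℚ[X]) : PowerSeries ℚ[X] :=
  PowerSeries.mk fun n => ∑ k ∈ range (n + 1),
    C (1 / (k.factorial : ℚ)) * PowerSeries.coeff n (f ^ k)

/-- The polynomial `P_{01r}(x)`: the number `(-4) ^ r r!` times the coefficient of `z ^ r` in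
`e ^ z β(z) ^ (r + 1) exp(∑_{1 ≤ j ≤ r} (-1) ^ (j + 1) B_j / (j j!) (s_j(x) - x) z ^ j)`.
Here `bernoulliPowerSeries` is `β(z) = z / (e ^ z - 1) = ∑ B_j z ^ j / j!`. -/
noncomputable def P01 (r : ℕ) : ℚ[X] :=
  C ((-4) ^ r * (r.factorial : ℚ)) * PowerSeries.coeff r
    (PowerSeries.exp ℚ[X] * bernoulliPowerSeries ℚ[X] ^ (r + 1) *
      expS (PowerSeries.mk fun j =>
        if 1 ≤ j ∧ j ≤ r then
          C ((-1) ^ (j + 1) * _root_.bernoulli j / (j * (j.factorial : ℚ))) * (s j - X) else 0))

/-- `P_{01r}` is alternating: `(-1) ^ k c_k > 0` for `1 ≤ k ≤ 2r`. -/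
def Alternating (r : ℕ) : Prop := ∀ k : ℕ, 1 ≤ k → k ≤ 2 * r → 0 < (-1 : ℚ) ^ k * (P01 r).coeff k

/-- `P_{01r}` is convex: its second derivative is nonnegative at all real points. -/
def IsConvex (r : ℕ) : Prop := ∀ x : ℝ, 0 ≤ aeval x (derivative (derivative (P01 r)))

theorem s_spec (j : ℕ) (N : ℕ) : (s j).eval (N : ℚ) = ∑ i ∈ Icc 1 N, (i : ℚ) ^ j := by
  have h := sum_Ico_pow N j
  have h2 : Icc 1 N = Ico 1 (N + 1) := by ext x; simp [mem_Icc, mem_Ico]
  rw [h2, h, s, eval_finsetSum]
  apply sum_congr rfl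
  intro i _
  simp only [eval_mul, eval_C, eval_pow, eval_X]
  ring

/-- the coefficients of the exponent at `x = a` -/
noncomputable def g (a : ℚ) : PowerSeries ℚ :=
  PowerSeries.mk fun j =>
        if 1 ≤ j ∧ j ≤ 8 then
          ((-1) ^ (j + 1) * _root_.bernoulli j / (j * (j.factorial : ℚ))) * ((s j).eval a - a) else 0

theorem eval_P01 (a : ℚ) : (P01 8).eval a = ((-4) ^ 8 * (Nat.factorial 8 : ℚ)) *
    PowerSeries.coeff 8 (PowerSeries.exp ℚ * bernoulliPowerSeries ℚ ^ 9 *
      PowerSeries.mk fun n => ∑ k ∈ range (n + 1),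
        (1 / (k.factorial : ℚ)) * PowerSeries.coeff n (g a ^ k)) := by
  have key : PowerSeries.map (evalRingHom a)
      (PowerSeries.exp ℚ[X] * bernoulliPowerSeries ℚ[X] ^ (8 + 1) *
      expS (PowerSeries.mk fun j =>
        if 1 ≤ j ∧ j ≤ 8 then
          C ((-1) ^ (j + 1) * _root_.bernoulli j / (j * (j.factorial : ℚ))) * (s j - X) else 0)) =
      PowerSeries.exp ℚ * bernoulliPowerSeries ℚ ^ 9 *
      PowerSeries.mk fun n => ∑ k ∈ range (n + 1),
        (1 / (k.factorial : ℚ)) * PowerSeries.coeff n (g a ^ k) := by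
    rw [map_mul, map_mul, map_pow]
    have e1 : PowerSeries.map (evalRingHom a) (PowerSeries.exp ℚ[X]) = PowerSeries.exp ℚ := by
      ext n
      simp [PowerSeries.coeff_exp]
    have e2 : PowerSeries.map (evalRingHom a) (bernoulliPowerSeries ℚ[X]) =
        bernoulliPowerSeries ℚ := by
      ext n
      simp [bernoulliPowerSeries]
    have e3 : PowerSeries.map (evalRingHom a) (PowerSeries.mk fun j =>
        if 1 ≤ j ∧ j ≤ 8 then
          C ((-1) ^ (j + 1) * _root_.bernoulli j / (j * (j.factorial : ℚ))) * (s j - X) else 0) =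
        g a := by
      ext m
      unfold g
      rw [PowerSeries.coeff_map, PowerSeries.coeff_mk, PowerSeries.coeff_mk]
      split_ifs with h
      · simp
      · simp
    rw [e1, e2]
    congr 1
    ext n
    unfold expS
    rw [PowerSeries.coeff_map, PowerSeries.coeff_mk, PowerSeries.coeff_mk, map_sum]
    apply sum_congr rfl
    intro k _
    rw [map_mul]
    congr 1
    · simp
    · rw [← PowerSeries.coeff_map, map_pow, e3]
  unfold P01
  rw [eval_mul, eval_C]
  congr 1
  rw [← coe_evalRingHom, ← PowerSeries.coeff_map, key]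

open Q261.P01

theorem agree_exp : Agree (PowerSeries.exp ℚ)
    [1, 1, 1/2, 1/6, 1/24, 1/120, 1/720, 1/5040, 1/40320] := by
  intro n hn
  rw [PowerSeries.coeff_exp]
  interval_cases n <;> norm_num [Nat.factorial]

theorem agree_beta : Agree (bernoulliPowerSeries ℚ)
    [1, -1/2, 1/12, 0, -1/720, 0, 1/30240, 0, -1/1209600] := by
  obtain ⟨h0, h1, h2, h3, h4, h5, h6, h7, h8⟩ := bernoulli_vals
  intro n hn
  rw [bernoulliPowerSeries, PowerSeries.coeff_mk]
  interval_cases n <;> norm_num [Nat.factorial, h0, h1, h2, h3, h4, h5, h6, h7, h8]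

theorem g_zero_of (a : ℕ) (ha : a = 0 ∨ a = 1) : g a = 0 := by
  ext j
  unfold g
  rw [PowerSeries.coeff_mk]
  split_ifs with h
  · rw [s_spec]
    rcases ha with rfl | rfl
    · simp
    · simp
  · simp

/-- the coefficients of the exponent at `x = 3` -/
def l3 : List ℚ := [0, -3/2, -11/24, 0, 19/576, 0, -113/25920, 0, 1363/1935360]

theorem agree_g3 : Agree (g ((3 : ℕ) : ℚ)) l3 := by
  obtain ⟨h0, h1, h2, h3, h4, h5, h6, h7, h8⟩ := bernoulli_vals
  intro n hn
  rw [g, PowerSeries.coeff_mk, s_spec]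
  interval_cases n <;> norm_num [l3, Nat.factorial, h0, h1, h2, h3, h4, h5, h6, h7, h8,
    Finset.sum_Icc_succ_top]

/-- the exponential at `x = 3` -/
def e3 : List ℚ := [1, -3/2, 2/3, 1/8, -1/6, -1/80, 7/180, 17/13440, -809/90720]

theorem agree_e3 : Agree (PowerSeries.mk fun n => ∑ k ∈ range (n + 1),
        (1 / (k.factorial : ℚ)) * PowerSeries.coeff n (g ((3 : ℕ) : ℚ) ^ k)) e3 := by
  intro n hn
  rw [PowerSeries.coeff_mk]
  have h1 : ∀ k ∈ range (n + 1), (1 / (k.factorial : ℚ)) *
      PowerSeries.coeff n (g ((3 : ℕ) : ℚ) ^ k) =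
      (1 / (k.factorial : ℚ)) * (powL l3 k).getD n 0 := by
    intro k _
    rw [(agree_g3.pow k) n hn]
  rw [sum_congr rfl h1, ← list_sum_range]
  clear h1
  revert n
  decide +kernel

theorem agree_e0 : Agree (PowerSeries.mk fun n => ∑ k ∈ range (n + 1),
        (1 / (k.factorial : ℚ)) * PowerSeries.coeff n ((0 : PowerSeries ℚ) ^ k))
        [1, 0, 0, 0, 0, 0, 0, 0, 0] := by
  intro n hn
  rw [PowerSeries.coeff_mk, sum_range_succ']
  have h1 : ∑ k ∈ range n, (1 / ((k + 1).factorial : ℚ)) *
      PowerSeries.coeff n ((0 : PowerSeries ℚ) ^ (k + 1)) = 0 := by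
    apply sum_eq_zero
    intro k _
    rw [pow_succ, mul_zero, map_zero, mul_zero]
  rw [h1, pow_zero, PowerSeries.coeff_one]
  interval_cases n <;> simp

/-- the list of `β` -/
def bl : List ℚ := [1, -1/2, 1/12, 0, -1/720, 0, 1/30240, 0, -1/1209600]

/-- the list of `exp` -/
def el : List ℚ := [1, 1, 1/2, 1/6, 1/24, 1/120, 1/720, 1/5040, 1/40320]

theorem eval_zero_one (a : ℕ) (ha : a = 0 ∨ a = 1) : (P01 8).eval (a : ℚ) = 0 := by
  rw [eval_P01, g_zero_of a ha]
  have h := ((agree_exp.mul (agree_beta.pow 9)).mul agree_e0) 8 (by norm_num)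
  rw [h]
  have h2 : (mulL (mulL el (powL bl 9)) [1, 0, 0, 0, 0, 0, 0, 0, 0]).getD 8 0 = 0 := by
    decide +kernel
  unfold el bl at h2
  rw [h2, mul_zero]

theorem eval_three : (P01 8).eval ((3 : ℕ) : ℚ) = -308510720 / 9 := by
  rw [eval_P01]
  have h := ((agree_exp.mul (agree_beta.pow 9)).mul agree_e3) 8 (by norm_num)
  rw [h]
  have h2 : (mulL (mulL el (powL bl 9)) e3).getD 8 0 = -269/20736 := by
    decide +kernel
  unfold el bl at h2
  rw [h2]
  norm_num [Nat.factorial]

/-- **Main result.** The polynomials `s_j` are the power sum polynomials;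
`P_{018}(0) = P_{018}(1) = 0` and `P_{018}(3) = -308510720/9`; the second derivative of `P_{018}`
is negative at some real point; so it is not true that `P_{01r}` is alternating and convex for
every `r ≥ 1`. -/
theorem result :
    (∀ j N : ℕ, (s j).eval (N : ℚ) = ∑ i ∈ Icc 1 N, (i : ℚ) ^ j) ∧
    (P01 8).eval 0 = 0 ∧ (P01 8).eval 1 = 0 ∧ (P01 8).eval 3 = -308510720 / 9 ∧
    (∃ x : ℝ, aeval x (derivative (derivative (P01 8))) < 0) ∧
    ¬ ∀ r : ℕ, 1 ≤ r → Alternating r ∧ IsConvex r := by
  have h0 : (P01 8).eval 0 = 0 := by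
    have := eval_zero_one 0 (Or.inl rfl)
    rwa [Nat.cast_zero] at this
  have h1 : (P01 8).eval 1 = 0 := by
    have := eval_zero_one 1 (Or.inr rfl)
    rwa [Nat.cast_one] at this
  have h3 : (P01 8).eval 3 = -308510720 / 9 := by
    have := eval_three
    exact_mod_cast this
  have hx : ∃ x : ℝ, aeval x (derivative (derivative (P01 8))) < 0 := by
    by_contra hcon
    push Not at hcon
    set p : ℝ[X] := (P01 8).map (algebraMap ℚ ℝ) with hp
    have hconv : ConvexOn ℝ Set.univ (fun x : ℝ => p.eval x) := by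
      apply convexOn_univ_of_deriv2_nonneg
      · exact p.differentiable
      · have : deriv (fun x : ℝ => p.eval x) = fun x => (derivative p).eval x := by
          funext x; exact p.deriv
        rw [this]
        exact (derivative p).differentiable
      · intro x
        have e1 : deriv (fun x : ℝ => p.eval x) = fun x => (derivative p).eval x := by
          funext x; exact p.deriv
        rw [Function.iterate_succ, Function.iterate_one, Function.comp_apply, e1,
          Polynomial.deriv]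
        have e2 : (derivative (derivative p)).eval x =
            aeval x (derivative (derivative (P01 8))) := by
          rw [hp, derivative_map, derivative_map, eval_map, aeval_def]
        rw [e2]
        exact hcon x
    have e : ∀ a : ℚ, p.eval (a : ℝ) = (((P01 8).eval a : ℚ) : ℝ) := by
      intro a
      rw [hp, eval_map]
      have := (Polynomial.hom_eval₂ (P01 8) (RingHom.id ℚ) (algebraMap ℚ ℝ) a).symm
      simpa using this
    have h := hconv.2 (Set.mem_univ (0 : ℝ)) (Set.mem_univ (3 : ℝ))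
      (show (0 : ℝ) ≤ 2/3 by norm_num) (show (0 : ℝ) ≤ 1/3 by norm_num) (by norm_num)
    have e0 := e 0
    have e1 := e 1
    have e3 := e 3
    rw [h0] at e0
    rw [h1] at e1
    rw [h3] at e3
    norm_num at h e0 e1 e3
    rw [e0, e1, e3] at h
    norm_num at h
  refine ⟨s_spec, h0, h1, h3, hx, ?_⟩
  intro h
  obtain ⟨x, hx⟩ := hx
  exact absurd ((h 8 (by norm_num)).2 x) (not_le.2 hx)

end Pool.Agent.Results.MP_dbc085_nt.NotConvex
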